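import Mathlib
import Pool.Agent.Helper98.Bern.Final

/-!
For every fixed `m`, the Bernoulli polynomials of index `2^r 3^s m` with `r ≥ 1` are irreducible
with finitely many exceptions.
-/

namespace Pool.Agent.Results.MP_b354c3_nt.IrreducibleFamilies

open Polynomial

/-- There is an `N0` such that the Bernoulli polynomial `B_n` is irreducible over `ℚ` for every
`n = 2^r 3^s m ≥ N0` with `r ≥ 1`, `m ≥ 1` and `m ^ 99 < 2^r 3^s`. -/
theorem result : ∃ N0 : ℕ, ∀ m r s : ℕ, 1 ≤ m → 1 ≤ r → m ^ 99 < 2 ^ r * 3 ^ s →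
    N0 ≤ 2 ^ r * 3 ^ s * m → Irreducible (Polynomial.bernoulli (2 ^ r * 3 ^ s * m)) := by
  obtain ⟨N0, hN⟩ := Pool.Agent.Helper98.Bern.large_factor
  exact ⟨N0, fun m r s hm hr h1 h2 =>
    Pool.Agent.Helper98.Bern.irreducible_uniform hN m r s hm hr h1 h2⟩

end Pool.Agent.Results.MP_b354c3_nt.IrreducibleFamilies
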